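import Pool.Agent.helper5.SYM.SpecB

/-!
# sy:QUO: existence of the quotient
-/

set_option autoImplicit false

namespace Pool.Agent.SYM
open Finset CT Polynomial

section
variable {V D A : Type} [AddCommGroup A]

/-- uniqueness of the representation -/
theorem QUO_uni {s : D → D} {ρ : A → D → D} {Y : D → Prop} {X : Finset (V × Fin 4)}
    {κ : V × Fin 4 → D} (h : Fre s ρ Y X κ) {x y : V × Fin 4} (hx : x ∈ X) (hy : y ∈ X) {a b : A}
    (hab : ρ a (κ x) = ρ b (κ y)) : x = y ∧ a = b := by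
  have h1 : ρ (-b + a) (κ x) = κ y := by
    rw [h.radd, hab, ← h.radd, neg_add_cancel, h.r0]
  obtain ⟨h2, h3⟩ := h.q3 x hx y hy _ h1
  refine ⟨h2, ?_⟩
  rw [neg_add_eq_zero] at h3
  exact h3.symm

/-- the functions `π`, `λ` -/
theorem QUO_pi {s : D → D} {ρ : A → D → D} {Y : D → Prop} {X : Finset (V × Fin 4)}
    {κ : V × Fin 4 → D} (h : Fre s ρ Y X κ) :
    ∃ (π : V × Fin 4 → V × Fin 4) (l : V × Fin 4 → A),
      (∀ x ∈ X, π x ∈ X ∧ s (κ x) = ρ (l x) (κ (π x)) ∧ π (π x) = x ∧ l (π x) = - l x) ∧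
      ∀ x ∈ X, π x = x → l x ∈ O2 A := by
  classical
  have h1 : ∀ x ∈ X, ∃ y ∈ X, ∃ a, ρ a (κ y) = s (κ x) := fun x hx =>
    h.q2 (s (κ x)) ((h.Ys _).2 (h.q1 x hx))
  let π : V × Fin 4 → V × Fin 4 := fun x => if hx : x ∈ X then (h1 x hx).choose else x
  have hπ : ∀ x ∈ X, π x ∈ X ∧ ∃ a, ρ a (κ (π x)) = s (κ x) := by
    intro x hx
    have h2 : π x = (h1 x hx).choose := dif_pos hx
    rw [h2]
    exact (h1 x hx).choose_spec
  let l : V × Fin 4 → A := fun x => if hx : x ∈ X then (hπ x hx).2.choose else 0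
  have hl : ∀ x ∈ X, s (κ x) = ρ (l x) (κ (π x)) := by
    intro x hx
    have h2 : l x = (hπ x hx).2.choose := dif_pos hx
    rw [h2]
    exact (hπ x hx).2.choose_spec.symm
  have hinv : ∀ x ∈ X, π (π x) = x ∧ l (π x) = - l x := by
    intro x hx
    have h2 : s (κ (π x)) = ρ (- l x) (κ x) := by
      have h3 : κ (π x) = ρ (- l x) (s (κ x)) := by
        rw [hl x hx, ← h.radd, neg_add_cancel, h.r0]
      rw [h3, h.rs, h.ss]
    have h4 := hl (π x) (hπ x hx).1
    rw [h2] at h4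
    obtain ⟨h5, h6⟩ := QUO_uni h hx (hπ _ (hπ x hx).1).1 h4
    exact ⟨h5.symm, h6.symm⟩
  refine ⟨π, l, fun x hx => ⟨(hπ x hx).1, hl x hx, hinv x hx⟩, ?_⟩
  intro x hx hpx
  have h2 := (hinv x hx).2
  rw [hpx] at h2
  refine ⟨?_, ?_⟩
  · intro h3
    have h4 := hl x hx
    rw [h3, hpx, h.r0] at h4
    exact h.sne _ h4
  · nth_rewrite 1 [h2]
    exact neg_add_cancel _

end

theorem QUO : QUO_stmt := by
  classical
  intro V D A _ _ _ _ _ s ρ Y X κ h
  obtain ⟨π, l, hπ, ho⟩ := QUO_pi h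
  -- the vertex copy of a dart
  let xo : (V × Fin 3) × Fin 4 → V × Fin 4 := fun d => (d.1.1, d.2)
  let de : V × Fin 4 → (V × Fin 3) × Fin 4 := fun x => ((x.1, 1), x.2)
  have hxoli : ∀ x, xo (li x) = x := fun x => rfl
  have hxode : ∀ x, xo (de x) = x := fun x => rfl
  have hli0 : ∀ x : V × Fin 4, (li x).1.2 = 0 := fun x => rfl
  have hde1 : ∀ x, (de x).1.2 = 1 := fun x => rfl
  have hlixo : ∀ d : (V × Fin 3) × Fin 4, d.1.2 = 0 → d = li (xo d) := by
    rintro ⟨⟨v, c⟩, i⟩ hc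
    simp only at hc
    subst hc
    rfl
  have hdexo : ∀ d : (V × Fin 3) × Fin 4, d.1.2 = 1 → d = de (xo d) := by
    rintro ⟨⟨v, c⟩, i⟩ hc
    simp only at hc
    subst hc
    rfl
  have h01 : (0 : Fin 3) ≠ 1 := by decide
  have h10 : (1 : Fin 3) ≠ 0 := by decide
  have hlide : ∀ x y : V × Fin 4, li x ≠ de y := fun x y hxy => h01 (by
    have := congrArg (fun d : (V × Fin 3) × Fin 4 => d.1.2) hxy
    exact this)
  -- the matching
  let e : (V × Fin 3) × Fin 4 → (V × Fin 3) × Fin 4 := fun d =>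
    if xo d ∈ X then
      (if d.1.2 = 0 then (if π (xo d) = xo d then de (xo d) else li (π (xo d)))
      else if d.1.2 = 1 ∧ π (xo d) = xo d then li (xo d) else d)
    else d
  let α : (V × Fin 3) × Fin 4 → A := fun d =>
    if xo d ∈ X ∧ d.1.2 = 0 ∧ π (xo d) ≠ xo d then l (xo d) else 0
  let C : Finset ((V × Fin 3) × Fin 4) :=
    univ.filter fun d => d.1.2 = 1 ∧ xo d ∈ X ∧ π (xo d) = xo d
  let γ : (V × Fin 3) × Fin 4 → A := fun d => l (xo d)
  have hC : ∀ d, d ∈ C ↔ d.1.2 = 1 ∧ xo d ∈ X ∧ π (xo d) = xo d := by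
    intro d
    show d ∈ univ.filter _ ↔ _
    rw [mem_filter]
    exact and_iff_right (mem_univ _)
  -- values
  have e0 : ∀ x, e (li x) = if x ∈ X then (if (0 : Fin 3) = 0 then
      (if π x = x then de x else li (π x)) else if (0 : Fin 3) = 1 ∧ π x = x then li x else li x)
      else li x := fun x => rfl
  have e1 : ∀ x ∈ X, π x = x → e (li x) = de x := by
    intro x hx hp
    rw [e0, if_pos hx, if_pos rfl, if_pos hp]
  have e2 : ∀ x ∈ X, π x ≠ x → e (li x) = li (π x) := by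
    intro x hx hp
    rw [e0, if_pos hx, if_pos rfl, if_neg hp]
  have e3 : ∀ x ∈ X, π x = x → e (de x) = li x := by
    intro x hx hp
    have h1 : e (de x) = if x ∈ X then (if (1 : Fin 3) = 0 then
      (if π x = x then de x else li (π x)) else if (1 : Fin 3) = 1 ∧ π x = x then li x else de x)
      else de x := rfl
    rw [h1, if_pos hx, if_neg h10, if_pos ⟨rfl, hp⟩]
  -- the inactive darts
  have hcase : ∀ d, (∃ x ∈ X, d = li x) ∨ (∃ x ∈ X, π x = x ∧ d = de x) ∨
      (e d = d ∧ α d = 0 ∧ (∀ x ∈ X, d ≠ li x) ∧ d ∉ C) := by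
    intro d
    by_cases hx : xo d ∈ X
    · by_cases h0 : d.1.2 = 0
      · exact Or.inl ⟨xo d, hx, hlixo d h0⟩
      · by_cases h1 : d.1.2 = 1 ∧ π (xo d) = xo d
        · exact Or.inr (Or.inl ⟨xo d, hx, h1.2, hdexo d h1.1⟩)
        · refine Or.inr (Or.inr ⟨?_, ?_, ?_, ?_⟩)
          · show (if xo d ∈ X then _ else _) = _
            rw [if_pos hx, if_neg h0, if_neg h1]
          · show (if xo d ∈ X ∧ d.1.2 = 0 ∧ π (xo d) ≠ xo d then _ else _) = _
            rw [if_neg]
            rintro ⟨-, h2, -⟩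
            exact h0 h2
          · rintro x - rfl
            exact h0 rfl
          · rw [hC]
            rintro ⟨h2, -, h3⟩
            exact h1 ⟨h2, h3⟩
    · refine Or.inr (Or.inr ⟨?_, ?_, ?_, ?_⟩)
      · show (if xo d ∈ X then _ else _) = _
        rw [if_neg hx]
      · show (if xo d ∈ X ∧ d.1.2 = 0 ∧ π (xo d) ≠ xo d then _ else _) = _
        rw [if_neg]
        rintro ⟨h2, -, -⟩
        exact hx h2
      · rintro x hx' rfl
        exact hx hx'
      · rw [hC]
        rintro ⟨-, h2, -⟩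
        exact hx h2
  have a1 : ∀ x ∈ X, π x = x → α (li x) = 0 := by
    intro x hx hp
    show (if x ∈ X ∧ (0 : Fin 3) = 0 ∧ π x ≠ x then l x else 0) = 0
    rw [if_neg]
    rintro ⟨-, -, h2⟩
    exact h2 hp
  have a2 : ∀ x ∈ X, π x ≠ x → α (li x) = l x := by
    intro x hx hp
    show (if x ∈ X ∧ (0 : Fin 3) = 0 ∧ π x ≠ x then l x else 0) = l x
    rw [if_pos ⟨hx, rfl, hp⟩]
  have a3 : ∀ x, α (de x) = 0 := by
    intro x
    show (if x ∈ X ∧ (1 : Fin 3) = 0 ∧ π x ≠ x then l x else 0) = 0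
    rw [if_neg]
    rintro ⟨-, h2, -⟩
    exact h10 h2
  have hdeC : ∀ x, de x ∈ C ↔ x ∈ X ∧ π x = x := by
    intro x
    rw [hC]
    show (1 : Fin 3) = 1 ∧ x ∈ X ∧ π x = x ↔ _
    simp
  refine ⟨e, α, C, γ, ?_⟩
  refine ⟨?_, ?_, ⟨?_, ?_⟩, ?_, ?_, ?_⟩
  · -- involution
    intro d
    rcases hcase d with ⟨x, hx, rfl⟩ | ⟨x, hx, hp, rfl⟩ | ⟨h1, -⟩
    · by_cases hp : π x = x
      · rw [e1 x hx hp, e3 x hx hp]
      · have h3 := hπ x hx
        rw [e2 x hx hp, e2 (π x) h3.1 (by rw [h3.2.2.1]; exact fun h4 => hp h4.symm), h3.2.2.1]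
    · rw [e3 x hx hp, e1 x hx hp]
    · rw [h1, h1]
  · -- the active darts
    intro d
    rcases hcase d with ⟨x, hx, rfl⟩ | ⟨x, hx, hp, rfl⟩ | ⟨h1, -, h2, h3⟩
    · constructor
      · intro _
        exact Or.inl ⟨x, hx, rfl⟩
      · intro _
        by_cases hp : π x = x
        · rw [e1 x hx hp]
          exact (hlide _ _).symm
        · rw [e2 x hx hp]
          intro h4
          apply hp
          have := congrArg xo h4
          rw [hxoli, hxoli] at this
          exact this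
    · constructor
      · intro _
        exact Or.inr ((hdeC x).2 ⟨hx, hp⟩)
      · intro _
        rw [e3 x hx hp]
        exact hlide _ _
    · constructor
      · intro h4
        exact absurd h1 h4
      · rintro (⟨x, hx, h4⟩ | h4)
        · exact absurd h4.symm (h2 x hx)
        · exact absurd h4 h3
  · -- voltages
    intro d
    rcases hcase d with ⟨x, hx, rfl⟩ | ⟨x, hx, hp, rfl⟩ | ⟨h1, h2, -⟩
    · by_cases hp : π x = x
      · rw [e1 x hx hp, a1 x hx hp, a3, neg_zero]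
      · have h3 := hπ x hx
        rw [e2 x hx hp, a2 x hx hp, a2 (π x) h3.1 (by rw [h3.2.2.1]; exact fun h4 => hp h4.symm),
          h3.2.2.2]
    · rw [e3 x hx hp, a3, a1 x hx hp, neg_zero]
    · rw [h1, h2, neg_zero]
  · intro d hd
    rcases hcase d with ⟨x, hx, rfl⟩ | ⟨x, hx, hp, rfl⟩ | ⟨-, h2, -⟩
    · by_cases hp : π x = x
      · exact a1 x hx hp
      · exfalso
        rw [e2 x hx hp] at hd
        apply hp
        have := congrArg xo hd
        rw [hxoli, hxoli] at this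
        exact this
    · exact a3 x
    · exact h2
  · -- labels of the dead ends
    intro c hc
    rw [hC] at hc
    exact ⟨hc.1, ho _ hc.2.1 hc.2.2⟩
  · -- dead ends
    intro x
    show de x ∈ C ↔ _
    rw [hdeC]
    constructor
    · rintro ⟨hx, hp⟩
      refine ⟨hx, l x, ?_⟩
      have := (hπ x hx).2.1
      rwa [hp] at this
    · rintro ⟨hx, a, ha⟩
      refine ⟨hx, ?_⟩
      have h1 := (hπ x hx).2.1
      rw [ha] at h1
      exact (QUO_uni h hx (hπ x hx).1 h1).1.symm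
  · -- labelings
    let PP : (V × Fin 3) × Fin 4 → Prop := fun d => (d.1.2 = 0 ∧ xo d ∈ X) ∨ d ∈ C
    let f : (D → Bool) → (V × Fin 3) × Fin 4 → A → Bool := fun φ d g =>
      if PP d then φ (ρ g (κ (xo d))) else false
    have f1 : ∀ φ, ∀ x ∈ X, ∀ g, f φ (li x) g = φ (ρ g (κ x)) := by
      intro φ x hx g
      show (if PP (li x) then φ (ρ g (κ x)) else false) = _
      rw [if_pos (Or.inl ⟨rfl, hx⟩)]
    have f2 : ∀ φ, ∀ x ∈ X, π x = x → ∀ g, f φ (de x) g = φ (ρ g (κ x)) := by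
      intro φ x hx hp g
      show (if PP (de x) then φ (ρ g (κ x)) else false) = _
      rw [if_pos (Or.inr ((hdeC x).2 ⟨hx, hp⟩))]
    have f3 : ∀ φ d, (∀ x ∈ X, d ≠ li x) → d ∉ C → ∀ g, f φ d g = false := by
      intro φ d h1 h2 g
      show (if PP d then φ (ρ g (κ (xo d))) else false) = _
      rw [if_neg]
      rintro (⟨h3, h4⟩ | h3)
      · exact h1 _ h4 (hlixo d h3)
      · exact h2 h3
    have hlab : ∀ φ : D → Bool, (∀ d, φ (s d) = φ d) →
        Lab e α (f φ) ∧ ∀ c ∈ C, CapC (γ c) (f φ c) := by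
      intro φ hφ
      have hstep : ∀ x ∈ X, ∀ g, φ (ρ (g + l x) (κ (π x))) = φ (ρ g (κ x)) := by
        intro x hx g
        rw [h.radd, ← (hπ x hx).2.1, h.rs, hφ]
      refine ⟨⟨?_, ?_⟩, ?_⟩
      · intro d g
        rcases hcase d with ⟨x, hx, rfl⟩ | ⟨x, hx, hp, rfl⟩ | ⟨h1, h2, -⟩
        · by_cases hp : π x = x
          · rw [e1 x hx hp, a1 x hx hp, add_zero, f1 φ x hx, f2 φ x hx hp]
          · rw [e2 x hx hp, a2 x hx hp, f1 φ x hx, f1 φ (π x) (hπ x hx).1, hstep x hx]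
        · rw [e3 x hx hp, a3, add_zero, f1 φ x hx, f2 φ x hx hp]
        · rw [h1, h2, add_zero]
      · intro d hd
        funext g
        rcases hcase d with ⟨x, hx, rfl⟩ | ⟨x, hx, hp, rfl⟩ | ⟨-, -, h1, h2⟩
        · exfalso
          by_cases hp : π x = x
          · rw [e1 x hx hp] at hd
            exact hlide _ _ hd.symm
          · rw [e2 x hx hp] at hd
            apply hp
            have := congrArg xo hd
            rw [hxoli, hxoli] at this
            exact this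
        · exfalso
          rw [e3 x hx hp] at hd
          exact hlide _ _ hd
        · exact f3 φ d h1 h2 g
      · intro c hc g
        have hc' := (hC c).1 hc
        have h1 : c = de (xo c) := hdexo c hc'.1
        have h2 := hstep _ hc'.2.1 g
        rw [hc'.2.2] at h2
        show f φ c (g + l (xo c)) = f φ c g
        generalize xo c = x at *
        subst h1
        rw [f2 φ x hc'.2.1 hc'.2.2, f2 φ x hc'.2.1 hc'.2.2]
        exact h2
    let F0 : {φ : D → Bool // (∀ d, φ (s d) = φ d) ∧ ∀ d, ¬ Y d → φ d = false} →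
        {Φ : (V × Fin 3) × Fin 4 → A → Bool // Lab e α Φ ∧ ∀ c ∈ C, CapC (γ c) (Φ c)} :=
      fun φ => ⟨f φ.1, hlab φ.1 φ.2.1⟩
    have hF0 : ∀ φ, ∀ x ∈ X, ∀ g, (F0 φ).1 (li x) g = φ.1 (ρ g (κ x)) :=
      fun φ x hx g => f1 φ.1 x hx g
    have hbij : Function.Bijective F0 := by
      constructor
      · intro φ φ' hh
        apply Subtype.ext
        funext d
        by_cases hd : Y d
        · obtain ⟨x, hx, a, rfl⟩ := h.q2 d hd
          rw [← hF0 φ x hx a, ← hF0 φ' x hx a, hh]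
        · rw [φ.2.2 d hd, φ'.2.2 d hd]
      · rintro ⟨Φ, hΦ, hcap⟩
        have hq : ∀ d, Y d → ∃ p : (V × Fin 4) × A, p.1 ∈ X ∧ ρ p.2 (κ p.1) = d := by
          intro d hd
          obtain ⟨x, hx, a, ha⟩ := h.q2 d hd
          exact ⟨(x, a), hx, ha⟩
        let φ : D → Bool := fun d => if hd : Y d then Φ (li (hq d hd).choose.1) (hq d hd).choose.2
          else false
        have hφ1 : ∀ x ∈ X, ∀ g, φ (ρ g (κ x)) = Φ (li x) g := by
          intro x hx g
          have hY : Y (ρ g (κ x)) := (h.Yr _ _).2 (h.q1 x hx)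
          have h1 : φ (ρ g (κ x)) = Φ (li (hq _ hY).choose.1) (hq _ hY).choose.2 := dif_pos hY
          obtain ⟨h2, h3⟩ := (hq _ hY).choose_spec
          obtain ⟨h4, h5⟩ := QUO_uni h h2 hx h3
          rw [h1, h4, h5]
        have hφ2 : ∀ d, ¬ Y d → φ d = false := fun d hd => dif_neg hd
        have hde : ∀ x ∈ X, π x = x → Φ (de x) = Φ (li x) := by
          intro x hx hp
          funext g
          have h1 := hΦ.1 (li x) g
          rw [e1 x hx hp, a1 x hx hp, add_zero] at h1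
          exact h1
        have hφs : ∀ d, φ (s d) = φ d := by
          intro d
          by_cases hd : Y d
          · obtain ⟨x, hx, a, rfl⟩ := h.q2 d hd
            rw [← h.rs, (hπ x hx).2.1, ← h.radd, hφ1 _ (hπ x hx).1, hφ1 x hx]
            by_cases hp : π x = x
            · rw [hp, ← hde x hx hp]
              exact hcap (de x) ((hdeC x).2 ⟨hx, hp⟩) a
            · have h1 := hΦ.1 (li x) a
              rw [e2 x hx hp, a2 x hx hp] at h1
              exact h1
          · rw [hφ2 d hd, hφ2 (s d) (fun h1 => hd ((h.Ys d).1 h1))]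
        refine ⟨⟨φ, hφs, hφ2⟩, ?_⟩
        apply Subtype.ext
        show f φ = Φ
        funext d g
        rcases hcase d with ⟨x, hx, rfl⟩ | ⟨x, hx, hp, rfl⟩ | ⟨h0, -, h1, h2⟩
        · rw [f1 φ x hx, hφ1 x hx]
        · rw [f2 φ x hx hp, hφ1 x hx, hde x hx hp]
        · rw [f3 φ d h1 h2, hΦ.2 d h0]
    exact ⟨Equiv.ofBijective F0 hbij, fun φ x hx g => hF0 φ x hx g⟩

end Pool.Agent.SYM
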