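import Pool.Agent.helper47.SYM.V2

/-!
# sy:TRI: three vertices, 6 ends, no strand inside a vertex, no double strands
-/

set_option autoImplicit false

namespace Pool.Agent.SYM
open Finset CT Polynomial

section
variable {W : Type} [DecidableEq W]

theorem TRI_fin : ∀ (Q1 Q2 Q3 : Fin 4 → Bool), (∀ k, Q1 k = true ∨ Q2 k = true ∨ Q3 k = true) →
    (∀ k l, Q1 k = true → Q1 l = true → k = l) → (∀ k l, Q2 k = true → Q2 l = true → k = l) →
    2 ≤ (univ.filter fun k => Q3 k = true).card := by
  intro Q1 Q2 Q3 h h1 h2
  have hc : (univ : Finset (Fin 4)).card ≤ (univ.filter fun k => Q1 k = true).card +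
      (univ.filter fun k => Q2 k = true).card + (univ.filter fun k => Q3 k = true).card := by
    refine (card_le_card (t := (univ.filter fun k => Q1 k = true) ∪
      (univ.filter fun k => Q2 k = true) ∪ (univ.filter fun k => Q3 k = true)) ?_).trans ?_
    · intro k _
      rw [mem_union, mem_union, mem_filter, mem_filter, mem_filter]
      rcases h k with h | h | h <;> simp [h]
    · exact (card_union_le _ _).trans (Nat.add_le_add_right (card_union_le _ _) _)
  have c1 : (univ.filter fun k => Q1 k = true).card ≤ 1 := by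
    rw [card_le_one]
    intro a ha b hb
    exact h1 a b (mem_filter.1 ha).2 (mem_filter.1 hb).2
  have c2 : (univ.filter fun k => Q2 k = true).card ≤ 1 := by
    rw [card_le_one]
    intro a ha b hb
    exact h2 a b (mem_filter.1 ha).2 (mem_filter.1 hb).2
  rw [card_univ, Fintype.card_fin] at hc
  omega

/-- the number of darts at `v` which go to the ends -/
def TRI_ne (e : W × Fin 4 → W × Fin 4) (E : Finset (W × Fin 4)) (v : W) : ℕ :=
  ((univ : Finset (Fin 4)).filter fun k => e (v, k) ∈ E).card

theorem TRI_two (e : W × Fin 4 → W × Fin 4) (E : Finset (W × Fin 4)) (v w w' : W)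
    (hcl : ∀ k, (e (v, k)).1 = w ∨ (e (v, k)).1 = w' ∨ e (v, k) ∈ E)
    (h1 : ∀ k l, (e (v, k)).1 = w → (e (v, l)).1 = w → k = l)
    (h2 : ∀ k l, (e (v, k)).1 = w' → (e (v, l)).1 = w' → k = l) : 2 ≤ TRI_ne e E v := by
  have h := TRI_fin (fun k => decide ((e (v, k)).1 = w)) (fun k => decide ((e (v, k)).1 = w'))
    (fun k => decide (e (v, k) ∈ E)) (by simpa using hcl) (by simpa using h1) (by simpa using h2)
  simpa [TRI_ne] using h

/-- exactly one strand -/
theorem TRI_one (e : W × Fin 4 → W × Fin 4) (E : Finset (W × Fin 4)) (v w w' : W)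
    (hcl : ∀ k, (e (v, k)).1 = w ∨ (e (v, k)).1 = w' ∨ e (v, k) ∈ E)
    (h2 : ∀ k l, (e (v, k)).1 = w' → (e (v, l)).1 = w' → k = l) (h : TRI_ne e E v = 2) :
    ∃ k, (e (v, k)).1 = w := by
  by_contra hcon
  push Not at hcon
  have hc : (univ : Finset (Fin 4)).card ≤ (univ.filter fun k => (e (v, k)).1 = w').card +
      (univ.filter fun k => e (v, k) ∈ E).card := by
    refine (card_le_card (t := (univ.filter fun k => (e (v, k)).1 = w') ∪
      (univ.filter fun k => e (v, k) ∈ E)) ?_).trans (card_union_le _ _)
    intro k _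
    rw [mem_union, mem_filter, mem_filter]
    rcases hcl k with h | h | h
    · exact absurd h (hcon k)
    · exact Or.inl ⟨mem_univ _, h⟩
    · exact Or.inr ⟨mem_univ _, h⟩
  have c2 : (univ.filter fun k => (e (v, k)).1 = w').card ≤ 1 := by
    rw [card_le_one]
    intro a ha b hb
    exact h2 a b (mem_filter.1 ha).2 (mem_filter.1 hb).2
  unfold TRI_ne at h
  rw [card_univ, Fintype.card_fin] at hc
  omega

theorem TRI_s1 : ∀ a b : Fin 4, a ≠ b →
    (∑ t : Fin 3, if pa t a = b then (0 : ZMod 2) else 1) = 0 := by decide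

end

theorem TRI (hDS : DS_stmt) (hV2 : V2_stmt) : TRI_stmt := by
  intro W _ y z u E e p q hyz hyu hzu hcard hE hact hp hq hpq hin hdb
  obtain ⟨he, hA⟩ := hact
  have hzy := hyz.symm
  have huy := hyu.symm
  have huz := hzu.symm
  have hinj : ∀ a b, e a = e b → a = b := fun a b h => by rw [← he a, h, he]
  have my : y ∈ ({y, z, u} : Finset W) := by simp
  have mz : z ∈ ({y, z, u} : Finset W) := by simp
  have mu : u ∈ ({y, z, u} : Finset W) := by simp
  -- where a dart of one of the three vertices goes
  have hgo : ∀ v ∈ ({y, z, u} : Finset W), ∀ k,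
      ((e (v, k)).1 = y ∨ (e (v, k)).1 = z ∨ (e (v, k)).1 = u) ∨ e (v, k) ∈ E := by
    intro v hv k
    have h1 : e (e (v, k)) ≠ e (v, k) := by
      rw [he]
      intro h
      exact hin v hv k (by rw [← h])
    have h2 := (hA _).1 h1
    unfold dts at h2
    rw [mem_union, mem_product, mem_insert, mem_insert, mem_singleton] at h2
    rcases h2 with h2 | h2
    · exact Or.inl h2.1
    · exact Or.inr h2
  have hcy : ∀ k, (e (y, k)).1 = z ∨ (e (y, k)).1 = u ∨ e (y, k) ∈ E := by
    intro k
    have h1 := hgo y my k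
    have h2 := hin y my k
    tauto
  have hcz : ∀ k, (e (z, k)).1 = y ∨ (e (z, k)).1 = u ∨ e (z, k) ∈ E := by
    intro k
    have h1 := hgo z mz k
    have h2 := hin z mz k
    tauto
  have hcu : ∀ k, (e (u, k)).1 = y ∨ (e (u, k)).1 = z ∨ e (u, k) ∈ E := by
    intro k
    have h1 := hgo u mu k
    have h2 := hin u mu k
    tauto
  have ny := TRI_two e E y z u hcy (hdb y my z mz) (hdb y my u mu)
  have nz := TRI_two e E z y u hcz (hdb z mz y my) (hdb z mz u mu)
  have nu := TRI_two e E u y z hcu (hdb u mu y my) (hdb u mu z mz)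
  have hsum : TRI_ne e E y + TRI_ne e E z + TRI_ne e E u ≤ 6 := by
    have hc : ∀ v, TRI_ne e E v =
        ((((univ : Finset (Fin 4)).filter fun k => e (v, k) ∈ E)).image fun k => e (v, k)).card := by
      intro v
      rw [card_image_of_injective]
      · rfl
      · intro a b h
        exact (Prod.mk.inj (hinj _ _ h)).2
    have hd : ∀ v w : W, v ≠ w → Disjoint
        ((((univ : Finset (Fin 4)).filter fun k => e (v, k) ∈ E)).image fun k => e (v, k))
        ((((univ : Finset (Fin 4)).filter fun k => e (w, k) ∈ E)).image fun k => e (w, k)) := by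
      intro v w hvw
      rw [disjoint_left]
      intro x h1 h2
      rw [mem_image] at h1 h2
      obtain ⟨k, -, rfl⟩ := h1
      obtain ⟨l, -, h⟩ := h2
      exact hvw (Prod.mk.inj (hinj _ _ h)).1.symm
    rw [hc, hc, hc, ← card_union_of_disjoint (hd y z hyz), ← card_union_of_disjoint, ← hcard]
    · refine card_le_card ?_
      intro x hx
      rw [mem_union, mem_union, mem_image, mem_image, mem_image] at hx
      rcases hx with (⟨k, hk, rfl⟩ | ⟨k, hk, rfl⟩) | ⟨k, hk, rfl⟩
      · exact (mem_filter.1 hk).2
      · exact (mem_filter.1 hk).2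
      · exact (mem_filter.1 hk).2
    · rw [disjoint_union_left]
      exact ⟨hd y u hyu, hd z u hzu⟩
  have ey : TRI_ne e E y = 2 := by omega
  have ez : TRI_ne e E z = 2 := by omega
  -- the three strands
  obtain ⟨a, ha⟩ := TRI_one e E y z u hcy (hdb y my u mu) ey
  obtain ⟨b, hb⟩ := TRI_one e E y u z (fun k => by have := hcy k; tauto) (hdb y my z mz) ey
  obtain ⟨m, hm⟩ := TRI_one e E z u y (fun k => by have := hcz k; tauto) (hdb z mz y my) ez
  have hab : a ≠ b := fun h => hzu (by rw [← ha, ← hb, h])
  obtain ⟨a', ha'⟩ : ∃ a', e (y, a) = (z, a') := ⟨(e (y, a)).2, by rw [← ha]⟩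
  obtain ⟨b', hb'⟩ : ∃ b', e (y, b) = (u, b') := ⟨(e (y, b)).2, by rw [← hb]⟩
  obtain ⟨m', hm'⟩ : ∃ m', e (z, m) = (u, m') := ⟨(e (z, m)).2, by rw [← hm]⟩
  have ha2 : e (z, a') = (y, a) := by rw [← ha', he]
  have hb2 : e (u, b') = (y, b) := by rw [← hb', he]
  have hm2 : e (u, m') = (z, m) := by rw [← hm', he]
  have hma : m ≠ a' := by
    intro h
    rw [h, ha2] at hm'
    exact hyu (Prod.mk.inj hm').1
  have hmb : m' ≠ b' := by
    intro h
    rw [h, hb2] at hm2
    exact hyz (Prod.mk.inj hm2).1
  -- the first smoothing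
  have hiy := hin y my
  have hls : ∀ t, ls e y t = 0 := fun t => (V2_sm e he y hiy t).1
  have hsm : ∀ t d, sm e y t d =
      if d.1 = y then d else if (e d).1 = y then e (y, pa t (e d).2) else e d :=
    fun t => (V2_sm e he y hiy t).2
  have hactE : ∀ t, Act (dts {z, u} ∪ E) (sm e y t) := by
    intro t
    refine V2_act e y {z, u} E ?_ (fun x hx => (hE x hx).1) ⟨he, hA⟩ hiy t
    simp [hyz, hyu]
  have hys : ∀ k, e (y, k) ∈ E ∨ k = a ∨ k = b := by
    intro k
    rcases hcy k with h | h | h
    · exact Or.inr (Or.inl (hdb y my z mz k a h ha))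
    · exact Or.inr (Or.inr (hdb y my u mu k b h hb))
    · exact Or.inl h
  have hterm : ∀ t, NL (fun e' => if e' p = q then (1 : ZMod 2) else 0) [z, u] (sm e y t) =
      if pa t a = b then 0 else 1 := by
    intro t
    obtain ⟨he1, hA1⟩ := hactE t
    have sz : ∀ k, sm e y t (z, k) = if k = a' then e (y, pa t a) else e (z, k) := by
      intro k
      rw [hsm]
      simp only
      rw [if_neg hzy]
      by_cases hk : k = a'
      · rw [hk, ha2, if_pos rfl, if_pos rfl]
      · rw [if_neg hk, if_neg]
        intro h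
        exact hk (hdb z mz y my k a' h (by rw [ha2]))
    have su : ∀ k, sm e y t (u, k) = if k = b' then e (y, pa t b) else e (u, k) := by
      intro k
      rw [hsm]
      simp only
      rw [if_neg huy]
      by_cases hk : k = b'
      · rw [hk, hb2, if_pos rfl, if_pos rfl]
      · rw [if_neg hk, if_neg]
        intro h
        exact hk (hdb u mu y my k b' h (by rw [hb2]))
    have szm : sm e y t (z, m) = (u, m') := by rw [sz, if_neg hma, hm']
    by_cases hab' : pa t a = b
    · rw [if_pos hab']
      have h1 : sm e y t (z, a') = (u, b') := by rw [sz, if_pos rfl, hab', hb']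
      refine hDS W _ z u [] (sm e y t) m a' m' b' hzu he1 ?_ ?_ hma szm h1
      · intro k
        rw [hA1]
        unfold dts
        simp
      · intro k
        rw [hA1]
        unfold dts
        simp
    · rw [if_neg hab']
      have hpa1 : e (y, pa t a) ∈ E := by
        rcases hys (pa t a) with h | h | h
        · exact h
        · exact absurd h (V2_pa_ne t a)
        · exact absurd h hab'
      have hpb1 : e (y, pa t b) ∈ E := by
        rcases hys (pa t b) with h | h | h
        · exact h
        · exfalso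
          apply hab'
          rw [← h, V2_pa_pa]
        · exact absurd h (V2_pa_ne t b)
      refine hV2 W z u E (sm e y t) p q m m' hzu hcard (fun x hx => (hE x hx).2) (hactE t)
        hp hq hpq szm ?_ ?_ ?_
      · intro k
        rw [sz]
        by_cases hk : k = a'
        · rw [if_pos hk]
          exact (hE _ hpa1).2.1
        · rw [if_neg hk]
          exact hin z mz k
      · intro k
        rw [su]
        by_cases hk : k = b'
        · rw [if_pos hk]
          exact (hE _ hpb1).2.2
        · rw [if_neg hk]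
          exact hin u mu k
      · intro k hk
        rw [sz]
        by_cases hk' : k = a'
        · rw [if_pos hk']
          exact (hE _ hpa1).2.2
        · rw [if_neg hk']
          intro h
          exact hk (hdb z mz u mu k m h hm)
  have hNL : NL (fun e' => if e' p = q then (1 : ZMod 2) else 0) [y, z, u] e =
      ∑ t : Fin 3, if pa t a = b then (0 : ZMod 2) else 1 := by
    show (∑ t : Fin 3, if ls e y t = 0 then
      NL (fun e' => if e' p = q then (1 : ZMod 2) else 0) [z, u] (sm e y t) else 0) = _
    refine sum_congr rfl fun t _ => ?_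
    rw [if_pos (hls t), hterm t]
  rw [hNL]
  exact TRI_s1 a b hab

end Pool.Agent.SYM
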