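import Pool.Agent.helper5.SYM.SpecA

/-!
# sy:V2: two vertices joined by exactly one strand, and 6 ends
-/

set_option autoImplicit false

namespace Pool.Agent.SYM
open Finset CT Polynomial

theorem V2_pa_ne (t : Fin 3) (k : Fin 4) : pa t k ≠ k := by
  revert t k
  decide

theorem V2_pa_pa (t : Fin 3) (k : Fin 4) : pa t (pa t k) = k := by
  revert t k
  decide

section
variable {W : Type} [DecidableEq W]

/-- smoothing a vertex without inner strands -/
theorem V2_sm (e : W × Fin 4 → W × Fin 4) (he : ∀ d, e (e d) = d) (u : W)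
    (hu : ∀ k, (e (u, k)).1 ≠ u) (t : Fin 3) :
    ls e u t = 0 ∧ ∀ d, sm e u t d =
      if d.1 = u then d else if (e d).1 = u then e (u, pa t (e d).2) else e d := by
  have hne : ∀ k l, e (u, k) ≠ (u, l) := fun k l h => hu k (by rw [h])
  have hu1 : ∀ i j, i ≠ j → ∀ l, join e (u, i) (u, j) (u, l) =
      if l = i ∨ l = j then (u, l) else e (u, l) := by
    intro i j hij l
    unfold join
    by_cases h1 : l = i
    · simp [h1]
    by_cases h2 : l = j
    · simp [h2]
    simp [h1, h2, hne]
  obtain ⟨t1, t2, t3, t4, t5, t6⟩ := JZ2_pr t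
  constructor
  · unfold ls CT.lp
    rw [if_neg (hne _ _), hu1 _ _ t1, if_neg (not_or.2 ⟨t3, t4⟩), if_neg (hne _ _)]
  · intro d
    by_cases hd : d.1 = u
    · rw [if_pos hd]
      have hd' : d = (u, d.2) := by rw [← hd]
      have h4 : ∀ t : Fin 3, ∀ l : Fin 4, l = (pr t).1 ∨ l = (pr t).2.1 ∨ l = (pr t).2.2.1 ∨
          l = (pr t).2.2.2 := by decide
      rw [hd']
      generalize d.2 = l
      unfold sm
      rcases h4 t l with h | h | h | h
      · have h5 : join e (u, (pr t).1) (u, (pr t).2.1) (u, l) = (u, l) := by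
          rw [hu1 _ _ t1, if_pos (Or.inl h)]
        unfold join at h5 ⊢
        rw [h5]
        subst h
        simp [t3.symm, t5.symm]
      · have h5 : join e (u, (pr t).1) (u, (pr t).2.1) (u, l) = (u, l) := by
          rw [hu1 _ _ t1, if_pos (Or.inr h)]
        unfold join at h5 ⊢
        rw [h5]
        subst h
        simp [t4.symm, t6.symm]
      · subst h
        exact join_left _ _ _
      · subst h
        exact join_right _ _ _
    · rw [if_neg hd]
      have hdk : ∀ k, d ≠ (u, k) := fun k h => hd (by rw [h])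
      have hJ : join e (u, (pr t).1) (u, (pr t).2.1) d =
          if e d = (u, (pr t).1) then e (u, (pr t).2.1) else
          if e d = (u, (pr t).2.1) then e (u, (pr t).1) else e d := by
        unfold join
        rw [if_neg (by have := hdk (pr t).1; have := hdk (pr t).2.1; tauto)]
      have hS : sm e u t d =
          if e d = (u, (pr t).1) then e (u, (pr t).2.1) else
          if e d = (u, (pr t).2.1) then e (u, (pr t).1) else
          if e d = (u, (pr t).2.2.1) then e (u, (pr t).2.2.2) else
          if e d = (u, (pr t).2.2.2) then e (u, (pr t).2.2.1) else e d := by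
        show (if d = (u, (pr t).2.2.1) ∨ d = (u, (pr t).2.2.2) then d
          else if join e (u, (pr t).1) (u, (pr t).2.1) d = (u, (pr t).2.2.1) then
            join e (u, (pr t).1) (u, (pr t).2.1) (u, (pr t).2.2.2)
          else if join e (u, (pr t).1) (u, (pr t).2.1) d = (u, (pr t).2.2.2) then
            join e (u, (pr t).1) (u, (pr t).2.1) (u, (pr t).2.2.1)
          else join e (u, (pr t).1) (u, (pr t).2.1) d) = _
        rw [if_neg (by have := hdk (pr t).2.2.1; have := hdk (pr t).2.2.2; tauto), hJ,
          hu1 _ _ t1, hu1 _ _ t1]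
        rw [if_neg (by tauto : ¬ ((pr t).2.2.2 = (pr t).1 ∨ (pr t).2.2.2 = (pr t).2.1)),
          if_neg (by tauto : ¬ ((pr t).2.2.1 = (pr t).1 ∨ (pr t).2.2.1 = (pr t).2.1))]
        by_cases h1 : e d = (u, (pr t).1)
        · simp only [h1, if_true, hne, if_false]
        by_cases h2 : e d = (u, (pr t).2.1)
        · simp only [h2, if_true, hne, if_false]
          have : ((u, (pr t).2.1) : W × Fin 4) ≠ (u, (pr t).1) := by
            intro h
            exact t1 (Prod.mk.inj h).2.symm
          simp only [this, if_false, hne]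
        simp only [h1, h2, if_false]
      rw [hS]
      by_cases hed : (e d).1 = u
      · rw [if_pos hed]
        have h6 : e d = (u, (e d).2) := by rw [← hed]
        rw [h6]
        generalize (e d).2 = l
        simp only [Prod.mk.injEq, true_and]
        have h7 : ∀ t : Fin 3, ∀ l : Fin 4, (if l = (pr t).1 then (pr t).2.1 else
          if l = (pr t).2.1 then (pr t).1 else if l = (pr t).2.2.1 then (pr t).2.2.2 else
          if l = (pr t).2.2.2 then (pr t).2.2.1 else l) = pa t l := by decide
        have h8 : ∀ t : Fin 3, ∀ l : Fin 4, l = (pr t).1 ∨ l = (pr t).2.1 ∨ l = (pr t).2.2.1 ∨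
          l = (pr t).2.2.2 := by decide
        rw [← h7 t l]
        split_ifs with a1 a2 a3 a4
        · rfl
        · rfl
        · rfl
        · rfl
        · exfalso
          rcases h8 t l with h | h | h | h <;> contradiction
      · rw [if_neg hed]
        have h9 : ∀ k, e d ≠ (u, k) := fun k h => hed (by rw [h])
        simp only [h9, if_false]

/-- the activity after smoothing a vertex without inner strands -/
theorem V2_act (e : W × Fin 4 → W × Fin 4) (u : W) (S : Finset W) (E : Finset (W × Fin 4))
    (huS : u ∉ S) (hE : ∀ x ∈ E, x.1 ≠ u) (h : Act (dts (insert u S) ∪ E) e)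
    (hu : ∀ k, (e (u, k)).1 ≠ u) (t : Fin 3) : Act (dts S ∪ E) (sm e u t) := by
  obtain ⟨he, hA⟩ := h
  have hact : ∀ k, e (u, k) ≠ (u, k) := fun k h => hu k (by rw [h])
  obtain ⟨-, hs⟩ := V2_sm e he u hu t
  refine ⟨(JZ2_sm e he hact t).1, ?_⟩
  have hmem : ∀ d : W × Fin 4, d.1 ≠ u → (d ∈ dts (insert u S) ∪ E ↔ d ∈ dts S ∪ E) := by
    intro d hd
    unfold dts
    rw [mem_union, mem_union, mem_product, mem_product, mem_insert]
    simp [hd]
  intro d
  rw [hs d]
  by_cases hd : d.1 = u
  · rw [if_pos hd]
    constructor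
    · intro h
      exact absurd rfl h
    · intro h
      exfalso
      unfold dts at h
      rw [mem_union, mem_product] at h
      rcases h with h | h
      · exact huS (hd ▸ h.1)
      · exact hE d h hd
  rw [if_neg hd, ← hmem d hd, ← hA d]
  by_cases hed : (e d).1 = u
  · rw [if_pos hed]
    have h6 : e d = (u, (e d).2) := by rw [← hed]
    constructor
    · intro _ h
      rw [h] at hed
      exact hd hed
    · intro _ h
      have h7 : e d = (u, pa t (e d).2) := by
        have h9 := congrArg e h
        rw [he] at h9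
        exact h9.symm
      rw [h6] at h7
      have h8 := (Prod.mk.inj h7).2
      simp only at h8
      exact V2_pa_ne t _ h8.symm
  · rw [if_neg hed]

end

theorem V2_c1 : ∀ i j k m : Fin 4, k ≠ i → m ≠ i → k ≠ m →
    (∑ t : Fin 3, ∑ t' : Fin 3, if pa t k = m then (1 : ZMod 2) else 0) = 1 := by decide

theorem V2_c2 : ∀ i j k m : Fin 4, k ≠ i → m ≠ j →
    (∑ t : Fin 3, ∑ t' : Fin 3, if pa t k = i ∧ pa t' j = m then (1 : ZMod 2) else 0) = 1 := by
  decide

theorem V2 : V2_stmt := by
  intro W _ z u E e p q i j hzu hcard hE hact hp hq hpq hij hz hu hzk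
  obtain ⟨he, hA⟩ := hact
  have hinj : ∀ a b, e a = e b → a = b := fun a b h => by rw [← he a, h, he]
  have hji : e (u, j) = (z, i) := by rw [← hij, he]
  have huz : u ≠ z := hzu.symm
  -- membership in `E`
  have hmemE : ∀ d : W × Fin 4, e d ≠ d → d.1 ≠ z → d.1 ≠ u → d ∈ E := by
    intro d h1 h2 h3
    have h4 := (hA d).1 h1
    unfold dts at h4
    rw [mem_union, mem_product] at h4
    rcases h4 with h4 | h4
    · have := h4.1
      rw [mem_insert, mem_singleton] at this
      tauto
    · exact h4
  have hx : ∀ k, k ≠ i → e (z, k) ∈ E := by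
    intro k hk
    refine hmemE _ ?_ (hz k) (hzk k hk)
    intro h
    have := hinj _ _ h
    exact hz k (by rw [this])
  have hy1 : ∀ l, l ≠ j → (e (u, l)).1 ≠ z := by
    intro l hl h
    have h6 : e (u, l) = (z, (e (u, l)).2) := by rw [← h]
    have h7 : (u, l) = e (z, (e (u, l)).2) := by rw [← h6, he]
    by_cases h8 : (e (u, l)).2 = i
    · rw [h8, hij] at h7
      exact hl (Prod.mk.inj h7).2
    · exact hzk _ h8 (by rw [← h7])
  have hy : ∀ l, l ≠ j → e (u, l) ∈ E := by
    intro l hl
    refine hmemE _ ?_ (hy1 l hl) (hu l)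
    intro h
    have := hinj _ _ h
    exact hu l (by rw [this])
  -- the six ends
  have hends : ∀ x ∈ E, (∃ k, k ≠ i ∧ x = e (z, k)) ∨ ∃ l, l ≠ j ∧ x = e (u, l) := by
    let F : Finset (W × Fin 4) :=
      (((univ : Finset (Fin 4)).erase i).image fun k => e (z, k)) ∪
      (((univ : Finset (Fin 4)).erase j).image fun l => e (u, l))
    have hF1 : F ⊆ E := by
      intro x hx'
      rw [mem_union, mem_image, mem_image] at hx'
      rcases hx' with ⟨k, hk, rfl⟩ | ⟨l, hl, rfl⟩
      · exact hx k (ne_of_mem_erase hk)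
      · exact hy l (ne_of_mem_erase hl)
    have hF2 : F.card = 6 := by
      rw [card_union_of_disjoint, card_image_of_injective, card_image_of_injective,
        card_erase_of_mem (mem_univ _), card_erase_of_mem (mem_univ _)]
      · rfl
      · intro a b h
        exact (Prod.mk.inj (hinj _ _ h)).2
      · intro a b h
        exact (Prod.mk.inj (hinj _ _ h)).2
      · rw [disjoint_left]
        intro x h1 h2
        rw [mem_image] at h1 h2
        obtain ⟨k, -, rfl⟩ := h1
        obtain ⟨l, -, h⟩ := h2
        exact huz (Prod.mk.inj (hinj _ _ h)).1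
    have hF3 : F = E := eq_of_subset_of_card_le hF1 (by rw [hF2, hcard])
    intro x hxE
    rw [← hF3, mem_union, mem_image, mem_image] at hxE
    rcases hxE with ⟨k, hk, rfl⟩ | ⟨l, hl, rfl⟩
    · exact Or.inl ⟨k, ne_of_mem_erase hk, rfl⟩
    · exact Or.inr ⟨l, ne_of_mem_erase hl, rfl⟩
  -- the first smoothing
  have hzact : ∀ k, e (z, k) ≠ (z, k) := fun k h => hz k (by rw [h])
  have hls1 : ∀ t, ls e z t = 0 := fun t => (V2_sm e he z hz t).1
  have hsm1 : ∀ t d, sm e z t d =
      if d.1 = z then d else if (e d).1 = z then e (z, pa t (e d).2) else e d :=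
    fun t => (V2_sm e he z hz t).2
  have hpi : ∀ t, pa t i ≠ i := fun t => V2_pa_ne t i
  have hE1 : ∀ k, k ≠ i → (e (z, k)).1 ≠ z ∧ (e (z, k)).1 ≠ u := fun k hk => hE _ (hx k hk)
  have hE2 : ∀ l, l ≠ j → (e (u, l)).1 ≠ z ∧ (e (u, l)).1 ≠ u := fun l hl => hE _ (hy l hl)
  have hu1 : ∀ t l, sm e z t (u, l) = if l = j then e (z, pa t i) else e (u, l) := by
    intro t l
    rw [hsm1]
    simp only
    rw [if_neg huz]
    by_cases hl : l = j
    · rw [hl, hji, if_pos rfl, if_pos rfl]
    · rw [if_neg (hy1 l hl), if_neg hl]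
  have hu2 : ∀ t l, (sm e z t (u, l)).1 ≠ u := by
    intro t l
    rw [hu1]
    by_cases hl : l = j
    · rw [if_pos hl]
      exact (hE1 _ (hpi t)).2
    · rw [if_neg hl]
      exact hu l
  have he1 : ∀ t d, sm e z t (sm e z t d) = d := fun t => (JZ2_sm e he hzact t).1
  have hls2 : ∀ t t', ls (sm e z t) u t' = 0 := fun t t' => (V2_sm _ (he1 t) u (hu2 t) t').1
  have hsm2 : ∀ t t' d, sm (sm e z t) u t' d =
      if d.1 = u then d else if (sm e z t d).1 = u then sm e z t (u, pa t' (sm e z t d).2)
      else sm e z t d := fun t t' => (V2_sm _ (he1 t) u (hu2 t) t').2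
  -- the values at the ends
  have hvx : ∀ t t' k, k ≠ i → sm (sm e z t) u t' (e (z, k)) =
      if pa t k = i then e (u, pa t' j) else e (z, pa t k) := by
    intro t t' k hk
    have h1 : sm e z t (e (z, k)) = e (z, pa t k) := by
      rw [hsm1, if_neg (hE1 k hk).1, he]
      simp
    rw [hsm2, if_neg (hE1 k hk).2, h1]
    by_cases h2 : pa t k = i
    · rw [h2, hij]
      simp only [if_true]
      rw [hu1, if_neg (V2_pa_ne t' j)]
    · rw [if_neg (hE1 _ h2).2, if_neg h2]
  have hvy : ∀ t t' l, l ≠ j → sm (sm e z t) u t' (e (u, l)) =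
      if pa t' l = j then e (z, pa t i) else e (u, pa t' l) := by
    intro t t' l hl
    have h1 : sm e z t (e (u, l)) = (u, l) := by
      rw [hsm1, if_neg (hE2 l hl).1, he]
      simp only
      rw [if_neg huz]
    rw [hsm2, if_neg (hE2 l hl).2, h1]
    simp only [if_true]
    rw [hu1]
  -- the sum
  have hNL : NL (fun e' => if e' p = q then (1 : ZMod 2) else 0) [z, u] e =
      ∑ t : Fin 3, ∑ t' : Fin 3, if sm (sm e z t) u t' p = q then (1 : ZMod 2) else 0 := by
    show (∑ t : Fin 3, if ls e z t = 0 then (∑ t' : Fin 3, if ls (sm e z t) u t' = 0 then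
      (if sm (sm e z t) u t' p = q then (1 : ZMod 2) else 0) else 0) else 0) = _
    refine sum_congr rfl fun t _ => ?_
    rw [if_pos (hls1 t)]
    refine sum_congr rfl fun t' _ => ?_
    rw [if_pos (hls2 t t')]
  rw [hNL]
  have heq : ∀ a b, e a = e b ↔ a = b := fun a b => ⟨hinj a b, fun h => by rw [h]⟩
  rcases hends p hp with ⟨k, hk, rfl⟩ | ⟨k, hk, rfl⟩
  · rcases hends q hq with ⟨m, hm, rfl⟩ | ⟨m, hm, rfl⟩
    · have hkm : k ≠ m := fun h => hpq (by rw [h])
      refine Eq.trans ?_ (V2_c1 i j k m hk hm hkm)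
      refine sum_congr rfl fun t _ => sum_congr rfl fun t' _ => ?_
      rw [hvx t t' k hk]
      refine if_congr ?_ rfl rfl
      by_cases h2 : pa t k = i
      · rw [if_pos h2, heq, h2]
        simp only [Prod.mk.injEq, huz, false_and, false_iff]
        exact hm.symm
      · rw [if_neg h2, heq]
        simp
    · refine Eq.trans ?_ (V2_c2 i j k m hk hm)
      refine sum_congr rfl fun t _ => sum_congr rfl fun t' _ => ?_
      rw [hvx t t' k hk]
      refine if_congr ?_ rfl rfl
      by_cases h2 : pa t k = i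
      · rw [if_pos h2, heq]
        simp [h2]
      · rw [if_neg h2, heq]
        simp [h2, hzu]
  · rcases hends q hq with ⟨m, hm, rfl⟩ | ⟨m, hm, rfl⟩
    · rw [sum_comm]
      refine Eq.trans ?_ (V2_c2 j i k m hk hm)
      refine sum_congr rfl fun t' _ => sum_congr rfl fun t _ => ?_
      rw [hvy t t' k hk]
      refine if_congr ?_ rfl rfl
      by_cases h2 : pa t' k = j
      · rw [if_pos h2, heq]
        simp [h2]
      · rw [if_neg h2, heq]
        simp [h2, huz]
    · have hkm : k ≠ m := fun h => hpq (by rw [h])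
      rw [sum_comm]
      refine Eq.trans ?_ (V2_c1 j i k m hk hm hkm)
      refine sum_congr rfl fun t' _ => sum_congr rfl fun t _ => ?_
      rw [hvy t t' k hk]
      refine if_congr ?_ rfl rfl
      by_cases h2 : pa t' k = j
      · rw [if_pos h2, heq, h2]
        simp only [Prod.mk.injEq, hzu, false_and, false_iff]
        exact hm.symm
      · rw [if_neg h2, heq]
        simp

end Pool.Agent.SYM
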